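import Pool.Agent.Helper38.TH.Goals4
import Pool.Agent.Helper17.M3.Q4D

/-!
# Project TH (MP_fc6b1e_nt, T100), packet G4_BLK (assembly of `BLK4`)
-/

set_option autoImplicit false

namespace Pool.Agent.Helper97.TH

open Finset Pool.Agent.Helper17.PP Pool.Agent.Helper17.PP0 Pool.Agent.Helper17.PP2
  Pool.Agent.Helper11.M3 Pool.Agent.Helper38.TH
open Pool.Agent.Helper17.M3 (sum_pairs ti_mono bl_lt_of_subset re_mul_real)
open Pool.Agent.Helper32.TH (ps Wz cV ps_ne)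

section fou

variable {p : ℕ} [Fact p.Prime] {B B₀ k U Λ C : Type} [Field k] [AddCommGroup U] [Module k U]
    [AddCommGroup Λ] [Module k Λ] [AddCommGroup C] (S : Sys p B B₀ k U Λ C)

/-- A bound for all `z` gives a bound for the weight. -/
theorem fou_bound (hLAB : C_LAB) (ψ₁ : AddChar (ZMod p) ℂ) (V : B → Prop) (G : Finset B → ℝ)
    (P : Finset B) (h : Finset B → (B → ZMod p) → ℂ)
    (hG : ∀ b ⊆ P, (G b : ℂ) = (1 / (p : ℂ)) ^ P.card *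
      ∑ z ∈ lab (ZMod p) P, Wz S ψ₁ V h z b)
    (F : Finset (Finset B)) (hF : ∀ b ∈ F, b ⊆ P) (Φ : Finset B → ℂ) (w : Finset B → ℝ) (M : ℝ)
    (hM : ∀ z, ‖∑ b ∈ F, Wz S ψ₁ V h z b * Φ b * (w b : ℂ)‖ ≤ M) :
    ‖∑ b ∈ F, Φ b * ((G b * w b : ℝ) : ℂ)‖ ≤ M := by
  have h1 : ∑ b ∈ F, Φ b * ((G b * w b : ℝ) : ℂ) = (1 / (p : ℂ)) ^ P.card *
      ∑ z ∈ lab (ZMod p) P, ∑ b ∈ F, Wz S ψ₁ V h z b * Φ b * (w b : ℂ) := by
    rw [Finset.sum_comm, Finset.mul_sum]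
    refine Finset.sum_congr rfl fun b hb ↦ ?_
    rw [Complex.ofReal_mul, hG b (hF b hb), ← Finset.sum_mul, ← Finset.sum_mul]
    ring
  rw [h1, norm_mul, norm_pow, norm_div, norm_one, Complex.norm_natCast]
  have h2 : ‖∑ z ∈ lab (ZMod p) P, ∑ b ∈ F, Wz S ψ₁ V h z b * Φ b * (w b : ℂ)‖ ≤
      (p : ℝ) ^ P.card * M := by
    refine (norm_sum_le _ _).trans ((Finset.sum_le_card_nsmul _ _ M fun z _ ↦ hM z).trans
      (le_of_eq ?_))
    rw [nsmul_eq_mul, (hLAB B (ZMod p) P).1, ZMod.card]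
    push_cast
    rfl
  have hp : (0 : ℝ) < p := by exact_mod_cast (Fact.out : p.Prime).pos
  calc _ ≤ (1 / (p : ℝ)) ^ P.card * ((p : ℝ) ^ P.card * M) :=
        mul_le_mul_of_nonneg_left h2 (by positivity)
    _ = M := by
      rw [← mul_assoc, ← mul_pow, one_div, inv_mul_cancel₀ hp.ne', one_pow, one_mul]

end fou

section blocks

variable {p : ℕ} {B B₀ k U Λ C : Type} [Field k] [AddCommGroup U] [Module k U]
    [AddCommGroup Λ] [Module k Λ] [AddCommGroup C] (S : Sys p B B₀ k U Λ C)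

open Classical in
/-- The sum over `q` in the blocks in `[s, J)` is a sum over the blocks. -/
theorem sum_blocksI {M : Type} [AddCommMonoid M] (b : Finset B) (Φ I : B → Prop) (s J : ℕ)
    (F : B → M) (h : ∀ q ∈ b, S.bl q < J) :
    ∑ q ∈ b with (Φ q ∧ s ≤ S.bl q ∧ I q), F q =
      ∑ j ∈ Ico s J, ∑ q ∈ b with (Φ q ∧ S.bl q = j ∧ I q), F q := by
  rw [← Finset.sum_fiberwise_of_maps_to (s := b.filter fun q ↦ Φ q ∧ s ≤ S.bl q ∧ I q)
    (t := Ico s J) (g := S.bl)]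
  · refine Finset.sum_congr rfl fun j hj ↦ Finset.sum_congr ?_ fun _ _ ↦ rfl
    rw [mem_Ico] at hj
    ext q
    simp only [mem_filter]
    constructor
    · rintro ⟨⟨h1, h2, h3, h5⟩, h4⟩
      exact ⟨h1, h2, h4, h5⟩
    · rintro ⟨h1, h2, h3, h4⟩
      exact ⟨⟨h1, h2, by omega, h4⟩, h3⟩
  · intro q hq
    simp only [mem_filter] at hq
    exact mem_Ico.2 ⟨hq.2.2.1, h q hq.1⟩

open Classical in
/-- the sum over the blocks `≥ s'` of `q`, `≥ s` of `P₁` -/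
noncomputable def T0 (N I₀ : B → Prop) (s s' : ℕ) (P : Finset B)
    (Θ : Finset B → B → B → ℂ) : ℂ :=
  ∑ b ∈ P.powerset with S.Fam b, ∑ q ∈ b with (Wv S b q ∧ s' ≤ S.bl q ∧ I₀ q),
    ∑ P₁ ∈ b with (Piv S N b P₁ ∧ P₁ ≠ q ∧ s ≤ S.bl P₁), Θ b q P₁

open Classical in
/-- the block of `q` is `j` -/
noncomputable def TB (N I₀ : B → Prop) (s j : ℕ) (P : Finset B)
    (Θ : Finset B → B → B → ℂ) : ℂ :=
  ∑ b ∈ P.powerset with S.Fam b, ∑ q ∈ b with (Wv S b q ∧ S.bl q = j ∧ I₀ q),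
    ∑ P₁ ∈ b with (Piv S N b P₁ ∧ P₁ ≠ q ∧ s ≤ S.bl P₁), Θ b q P₁

open Classical in
/-- the block of `P₁` is `i` -/
noncomputable def TC (N I₀ : B → Prop) (i s' : ℕ) (P : Finset B)
    (Θ : Finset B → B → B → ℂ) : ℂ :=
  ∑ b ∈ P.powerset with S.Fam b, ∑ q ∈ b with (Wv S b q ∧ s' ≤ S.bl q ∧ I₀ q),
    ∑ P₁ ∈ b with (Piv S N b P₁ ∧ P₁ ≠ q ∧ S.bl P₁ = i), Θ b q P₁

open Classical in
/-- the block of `q` is `j`, the block of `P₁` is `i` -/
noncomputable def TD (N I₀ : B → Prop) (i j : ℕ) (P : Finset B)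
    (Θ : Finset B → B → B → ℂ) : ℂ :=
  ∑ b ∈ P.powerset with S.Fam b, ∑ q ∈ b with (Wv S b q ∧ S.bl q = j ∧ I₀ q),
    ∑ P₁ ∈ b with (Piv S N b P₁ ∧ P₁ ≠ q ∧ S.bl P₁ = i), Θ b q P₁

open Classical in
theorem T0_eq_TB (N I₀ : B → Prop) (s s' J : ℕ) (P : Finset B) (hP : ∀ q ∈ P, S.bl q < J)
    (Θ : Finset B → B → B → ℂ) :
    T0 S N I₀ s s' P Θ = ∑ j ∈ Ico s' J, TB S N I₀ s j P Θ := by
  unfold T0 TB
  rw [Finset.sum_comm (s := Ico s' J)]
  refine Finset.sum_congr rfl fun b hb ↦ ?_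
  rw [mem_filter, mem_powerset] at hb
  exact sum_blocksI S b (fun q ↦ Wv S b q) I₀ s' J _ fun q hq ↦ hP q (hb.1 hq)

open Classical in
theorem T0_eq_TC (N I₀ : B → Prop) (s s' J : ℕ) (P : Finset B) (hP : ∀ q ∈ P, S.bl q < J)
    (Θ : Finset B → B → B → ℂ) :
    T0 S N I₀ s s' P Θ = ∑ i ∈ Ico s J, TC S N I₀ i s' P Θ := by
  unfold T0 TC
  rw [Finset.sum_comm (s := Ico s J)]
  refine Finset.sum_congr rfl fun b hb ↦ ?_
  rw [mem_filter, mem_powerset] at hb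
  rw [Finset.sum_comm (s := Ico s J)]
  refine Finset.sum_congr rfl fun q _ ↦ ?_
  exact Pool.Agent.Helper17.M3.sum_piv S N b q s J _ fun P₁ hP₁ ↦ hP P₁ (hb.1 hP₁)

open Classical in
theorem TB_eq_TD (N I₀ : B → Prop) (s j J : ℕ) (P : Finset B) (hP : ∀ q ∈ P, S.bl q < J)
    (Θ : Finset B → B → B → ℂ) :
    TB S N I₀ s j P Θ = ∑ i ∈ Ico s J, TD S N I₀ i j P Θ := by
  unfold TB TD
  rw [Finset.sum_comm (s := Ico s J)]
  refine Finset.sum_congr rfl fun b hb ↦ ?_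
  rw [mem_filter, mem_powerset] at hb
  rw [Finset.sum_comm (s := Ico s J)]
  refine Finset.sum_congr rfl fun q _ ↦ ?_
  exact Pool.Agent.Helper17.M3.sum_piv S N b q s J _ fun P₁ hP₁ ↦ hP P₁ (hb.1 hP₁)

open Classical in
theorem T0_congr (N I₀ : B → Prop) (s s' : ℕ) (P : Finset B) (Θ Θ' : Finset B → B → B → ℂ)
    (h : ∀ b ⊆ P, ∀ q P₁, Θ b q P₁ = Θ' b q P₁) : T0 S N I₀ s s' P Θ = T0 S N I₀ s s' P Θ' := by
  unfold T0
  refine Finset.sum_congr rfl fun b hb ↦ Finset.sum_congr rfl fun q _ ↦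
    Finset.sum_congr rfl fun P₁ _ ↦ ?_
  rw [mem_filter, mem_powerset] at hb
  exact h b hb.1 q P₁

theorem T0_add (N I₀ : B → Prop) (s s' : ℕ) (P : Finset B) (Θ Θ' : Finset B → B → B → ℂ) :
    T0 S N I₀ s s' P (fun b q P₁ ↦ Θ b q P₁ + Θ' b q P₁) =
      T0 S N I₀ s s' P Θ + T0 S N I₀ s s' P Θ' := by
  unfold T0
  simp only [Finset.sum_add_distrib]

theorem T0_sum (N I₀ : B → Prop) (s s' : ℕ) (P : Finset B) (A : Finset ℕ)
    (Θ : ℕ → Finset B → B → B → ℂ) :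
    T0 S N I₀ s s' P (fun b q P₁ ↦ ∑ i ∈ A, Θ i b q P₁) =
      ∑ i ∈ A, T0 S N I₀ s s' P (Θ i) := by
  unfold T0
  rw [Finset.sum_comm (s := A)]
  refine Finset.sum_congr rfl fun b _ ↦ ?_
  rw [Finset.sum_comm (s := A)]
  refine Finset.sum_congr rfl fun q _ ↦ ?_
  rw [Finset.sum_comm (s := A)]

/-- the bound by the sums over the blocks -/
theorem norm_T0_B (N I₀ : B → Prop) (s s' J : ℕ) (P : Finset B) (hP : ∀ q ∈ P, S.bl q < J)
    (Θ : Finset B → B → B → ℂ) :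
    ‖T0 S N I₀ s s' P Θ‖ ≤ ∑ j ∈ Ico s' J, ‖TB S N I₀ s j P Θ‖ := by
  rw [T0_eq_TB S N I₀ s s' J P hP Θ]
  exact norm_sum_le _ _

theorem norm_T0_C (N I₀ : B → Prop) (s s' J : ℕ) (P : Finset B) (hP : ∀ q ∈ P, S.bl q < J)
    (Θ : Finset B → B → B → ℂ) :
    ‖T0 S N I₀ s s' P Θ‖ ≤ ∑ i ∈ Ico s J, ‖TC S N I₀ i s' P Θ‖ := by
  rw [T0_eq_TC S N I₀ s s' J P hP Θ]
  exact norm_sum_le _ _

theorem norm_T0_D (N I₀ : B → Prop) (s s' J : ℕ) (P : Finset B) (hP : ∀ q ∈ P, S.bl q < J)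
    (Θ : Finset B → B → B → ℂ) :
    ‖T0 S N I₀ s s' P Θ‖ ≤ ∑ i ∈ Ico s J, ∑ j ∈ Ico s' J, ‖TD S N I₀ i j P Θ‖ := by
  rw [Finset.sum_comm]
  refine (norm_T0_B S N I₀ s s' J P hP Θ).trans (Finset.sum_le_sum fun j _ ↦ ?_)
  rw [TB_eq_TD S N I₀ s j J P hP Θ]
  exact norm_sum_le _ _

end blocks

section

variable {p : ℕ} {B B₀ k U Λ C : Type} [Field k] [Fintype k]
    [Algebra (ZMod p) k] [AddCommGroup U] [Module k U] [Fintype U] [AddCommGroup Λ] [Module k Λ]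
    [Fintype Λ] [AddCommGroup C] (S : Sys p B B₀ k U Λ C)

open Classical in
/-- The inner sum of the `ful₄`. -/
noncomputable def PI (ψ : AddChar k ℂ) (N I₀ : B → Prop) (s s' : ℕ)
    (P : Finset B) (t u : k)
    (F : Finset B → B → B → AddChar Λ ℂ → (B → k) → (B → k) → Prop) (b : Finset B) : ℂ :=
  ∑ q ∈ b with (Wv S b q ∧ s' ≤ S.bl q ∧ I₀ q),
    ∑ P₁ ∈ b with (Piv S N b P₁ ∧ P₁ ≠ q ∧ s ≤ S.bl P₁),
      ful₄ S ψ P b q P₁ t u 0 (F b q P₁)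

open Classical in
/-- The sum of the `ful₄`, all blocks. -/
noncomputable def VI (ψ : AddChar k ℂ) (W : Finset B → ℝ) (N I₀ : B → Prop) (s s' : ℕ)
    (P : Finset B) (t u : k)
    (F : Finset B → B → B → AddChar Λ ℂ → (B → k) → (B → k) → Prop) : ℂ :=
  ∑ b ∈ P.powerset with S.Fam b, PI S ψ N I₀ s s' P t u F b * (W b : ℂ)

open Classical in
/-- multiplication of the inner sum by two weights -/
theorem mul_inner (ψ : AddChar k ℂ) (N I₀ : B → Prop) (s s' : ℕ) (P : Finset B) (t u : k)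
    (F : Finset B → B → B → AddChar Λ ℂ → (B → k) → (B → k) → Prop)
    (A : Finset (Finset B)) (hA : ∀ b, b ∈ A ↔ b ⊆ P ∧ S.Fam b) (w₁ w₂ : Finset B → ℂ) :
    ∑ b ∈ A, w₁ b * PI S ψ N I₀ s s' P t u F b * w₂ b =
      T0 S N I₀ s s' P fun b q P₁ ↦ w₁ b * ful₄ S ψ P b q P₁ t u 0 (F b q P₁) * w₂ b := by
  unfold T0 PI
  refine Finset.sum_congr ?_ fun b _ ↦ ?_
  · ext b
    rw [hA, mem_filter, mem_powerset]
  rw [Finset.mul_sum, Finset.sum_mul]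
  refine Finset.sum_congr rfl fun q _ ↦ ?_
  rw [Finset.mul_sum, Finset.sum_mul]

open Classical in
theorem fm_eq (hMN : Q_MN) (ψ : AddChar k ℂ) (W : Finset B → ℝ)
    (N I₀ : B → Prop) (s s' : ℕ) (P : Finset B) (t : k) :
    (VI S ψ W N I₀ s s' P t 0 (fun b q P₁ ↦ FM S b q P₁)).re =
      (Fintype.card U / Fintype.card Λ : ℝ) * ∑ b ∈ P.powerset with S.Fam b,
        (∑ q ∈ b with (Wv S b q ∧ s' ≤ S.bl q ∧ I₀ q),
          ∑ P₁ ∈ b with (Piv S N b P₁ ∧ P₁ ≠ q ∧ s ≤ S.bl P₁),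
            (1 / Fintype.card k : ℝ) ^ (ra₄ S b q P₁).card) * W b := by
  unfold VI PI
  rw [Complex.re_sum, Finset.mul_sum]
  refine Finset.sum_congr rfl fun b hb ↦ ?_
  rw [mem_filter, mem_powerset] at hb
  rw [← re_mul_real, ← mul_assoc]
  congr 1
  rw [Complex.re_sum, Finset.mul_sum]
  refine Finset.sum_congr rfl fun q hq ↦ ?_
  rw [mem_filter] at hq
  rw [Complex.re_sum, Finset.mul_sum]
  refine Finset.sum_congr rfl fun P₁ hP₁ ↦ ?_
  rw [mem_filter] at hP₁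
  rw [hMN p B B₀ k U Λ C S ψ P b q P₁ t hb.1 hq.2.1 hP₁.1 hP₁.2.2.1]
  have h : (Fintype.card U / Fintype.card Λ : ℂ) * (1 / Fintype.card k) ^ (ra₄ S b q P₁).card =
      (((Fintype.card U / Fintype.card Λ : ℝ) *
        (1 / Fintype.card k) ^ (ra₄ S b q P₁).card : ℝ) : ℂ) := by
    push_cast
    rfl
  rw [h, Complex.ofReal_re]

open Classical in
theorem ha_le (ψ : AddChar k ℂ) (G w : Finset B → ℝ) (hG0 : ∀ b, 0 ≤ G b) (hG1 : ∀ b, G b ≤ 1)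
    (hw : ∀ b, 0 ≤ w b)
    (N I₀ : B → Prop) (s s' J : ℕ) (P : Finset B) (hP : ∀ q ∈ P, S.bl q < J) (t : k)
    (F : Finset B → B → B → AddChar Λ ℂ → (B → k) → (B → k) → Prop) :
    (VI S ψ (fun b ↦ G b * w b) N I₀ s s' P t 0 F).re ≤
      ∑ j ∈ Ico s' J, ∑ b ∈ P.powerset with S.Fam b, ∑ q ∈ b with (Wv S b q ∧ S.bl q = j),
        ∑ P₁ ∈ b with (Piv S N b P₁ ∧ P₁ ≠ q),
          ‖ful₄ S ψ P b q P₁ t 0 0 (F b q P₁)‖ * w b := by
  refine (Complex.re_le_norm _).trans ?_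
  unfold VI PI
  rw [Finset.sum_comm]
  refine (norm_sum_le _ _).trans (Finset.sum_le_sum fun b hb ↦ ?_)
  rw [mem_filter, mem_powerset] at hb
  have hWb : 0 ≤ G b * w b := mul_nonneg (hG0 b) (hw b)
  rw [norm_mul, Complex.norm_real, Real.norm_of_nonneg hWb,
    ← Pool.Agent.Helper17.M3.sum_wv S b s' J (fun q ↦ ∑ P₁ ∈ b with (Piv S N b P₁ ∧ P₁ ≠ q),
      ‖ful₄ S ψ P b q P₁ t 0 0 (F b q P₁)‖ * w b) fun q hq ↦ hP q (hb.1 hq)]
  have h1 : G b * w b ≤ w b := mul_le_of_le_one_left (hw b) (hG1 b)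
  simp only [← Finset.sum_mul]
  refine mul_le_mul ?_ h1 hWb (Finset.sum_nonneg fun q _ ↦ Finset.sum_nonneg fun _ _ ↦
    norm_nonneg _)
  refine (norm_sum_le _ _).trans ((Finset.sum_le_sum fun q _ ↦ (norm_sum_le _ _).trans
    (Finset.sum_le_sum_of_subset_of_nonneg (t := b.filter fun P₁ ↦ Piv S N b P₁ ∧ P₁ ≠ q) ?_
      fun _ _ _ ↦ norm_nonneg _)).trans
    (Finset.sum_le_sum_of_subset_of_nonneg ?_ fun q _ _ ↦ Finset.sum_nonneg fun _ _ ↦
      norm_nonneg _))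
  · intro P₁ hP₁
    rw [mem_filter] at hP₁ ⊢
    exact ⟨hP₁.1, hP₁.2.1, hP₁.2.2.1⟩
  · intro q hq
    rw [mem_filter] at hq ⊢
    exact ⟨hq.1, hq.2.1, hq.2.2.1⟩

end

section steps

variable {p : ℕ} [Fact p.Prime] {B B₀ k U Λ C : Type} [Field k] [Fintype k]
    [Algebra (ZMod p) k] [AddCommGroup U] [Module k U] [Fintype U] [AddCommGroup Λ] [Module k Λ]
    [Fintype Λ] [AddCommGroup C] (S : Sys p B B₀ k U Λ C)

open Classical in
theorem vi_le (hFUL : Q_FUL) (ψ : AddChar k ℂ) (hψ : ψ ≠ 1) (W : Finset B → ℝ)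
    (hW : ∀ b, 0 ≤ W b) (N I₀ : B → Prop) (s s' : ℕ) (P : Finset B) :
    ∑ b ∈ P.powerset with S.Fam b,
      (∑ q ∈ b with (Wv S b q ∧ s' ≤ S.bl q ∧ I₀ q),
        ∑ P₁ ∈ b with (Piv S N b P₁ ∧ P₁ ≠ q ∧ s ≤ S.bl P₁),
          (cnt₅ S b q P₁ : ℝ)) * W b ≤ (1 / Fintype.card k : ℝ) *
      ∑ t : k with t ≠ 0, ∑ u : k,
        (VI S ψ W N I₀ s s' P t u (fun _ _ _ _ _ _ ↦ True)).re := by
  have h0 : ∀ b ∈ P.powerset.filter (fun b ↦ S.Fam b),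
      (∑ q ∈ b with (Wv S b q ∧ s' ≤ S.bl q ∧ I₀ q),
        ∑ P₁ ∈ b with (Piv S N b P₁ ∧ P₁ ≠ q ∧ s ≤ S.bl P₁), (cnt₅ S b q P₁ : ℝ)) * W b ≤
      (1 / Fintype.card k : ℝ) * ∑ t : k with t ≠ 0, ∑ u : k,
        (PI S ψ N I₀ s s' P t u (fun _ _ _ _ _ _ ↦ True) b * (W b : ℂ)).re := by
    intro b hb
    rw [mem_filter, mem_powerset] at hb
    have h1 : ∑ q ∈ b with (Wv S b q ∧ s' ≤ S.bl q ∧ I₀ q),
        ∑ P₁ ∈ b with (Piv S N b P₁ ∧ P₁ ≠ q ∧ s ≤ S.bl P₁), (cnt₅ S b q P₁ : ℝ) ≤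
        (1 / Fintype.card k : ℝ) * ∑ t : k with t ≠ 0, ∑ u : k,
          (PI S ψ N I₀ s s' P t u (fun _ _ _ _ _ _ ↦ True) b).re := by
      have h2 : ∀ q ∈ b.filter (fun q ↦ Wv S b q ∧ s' ≤ S.bl q ∧ I₀ q),
          ∀ P₁ ∈ b.filter (fun P₁ ↦ Piv S N b P₁ ∧ P₁ ≠ q ∧ s ≤ S.bl P₁),
          (cnt₅ S b q P₁ : ℝ) ≤ (1 / Fintype.card k : ℝ) * ∑ t : k with t ≠ 0, ∑ u : k,
            (ful₄ S ψ P b q P₁ t u 0 fun _ _ _ ↦ True).re := by
        intro q hq P₁ hP₁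
        rw [mem_filter] at hq hP₁
        have h3 := hFUL p B B₀ k U Λ C S ψ hψ ⊥ P b q P₁ hb.1 hq.2.1 hP₁.1 hP₁.2.2.1
          (Or.inl rfl)
        refine h3.trans (le_of_eq ?_)
        have h4 : (univ : Finset k).filter (fun y₁ ↦ y₁ ∈ (⊥ : AddSubgroup k)) = {0} := by
          ext y₁
          rw [mem_filter, AddSubgroup.mem_bot, mem_singleton]
          exact ⟨fun h ↦ h.2, fun h ↦ ⟨mem_univ _, h⟩⟩
        have h5 : (Nat.card (⊥ : AddSubgroup k) : ℝ) = 1 := by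
          rw [AddSubgroup.card_bot, Nat.cast_one]
        rw [h4, h5, mul_one]
        simp only [Finset.sum_singleton]
      refine (Finset.sum_le_sum fun q hq ↦ Finset.sum_le_sum (h2 q hq)).trans (le_of_eq ?_)
      simp only [← Finset.mul_sum]
      congr 1
      have h6 : ∀ t u : k, (PI S ψ N I₀ s s' P t u (fun _ _ _ _ _ _ ↦ True) b).re =
          ∑ q ∈ b with (Wv S b q ∧ s' ≤ S.bl q ∧ I₀ q),
            ∑ P₁ ∈ b with (Piv S N b P₁ ∧ P₁ ≠ q ∧ s ≤ S.bl P₁),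
              (ful₄ S ψ P b q P₁ t u 0 fun _ _ _ ↦ True).re := by
        intro t u
        unfold PI
        rw [Complex.re_sum]
        refine Finset.sum_congr rfl fun q _ ↦ ?_
        rw [Complex.re_sum]
      simp only [h6]
      have h7 : ∀ t : k, ∑ u : k, ∑ q ∈ b with (Wv S b q ∧ s' ≤ S.bl q ∧ I₀ q),
            ∑ P₁ ∈ b with (Piv S N b P₁ ∧ P₁ ≠ q ∧ s ≤ S.bl P₁),
              (ful₄ S ψ P b q P₁ t u 0 fun _ _ _ ↦ True).re =
          ∑ q ∈ b with (Wv S b q ∧ s' ≤ S.bl q ∧ I₀ q),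
            ∑ P₁ ∈ b with (Piv S N b P₁ ∧ P₁ ≠ q ∧ s ≤ S.bl P₁), ∑ u : k,
              (ful₄ S ψ P b q P₁ t u 0 fun _ _ _ ↦ True).re := by
        intro t
        rw [Finset.sum_comm]
        refine Finset.sum_congr rfl fun q _ ↦ ?_
        rw [Finset.sum_comm]
      simp only [h7]
      rw [eq_comm, Finset.sum_comm]
      refine Finset.sum_congr rfl fun q _ ↦ ?_
      rw [Finset.sum_comm]
    refine (mul_le_mul_of_nonneg_right h1 (hW b)).trans (le_of_eq ?_)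
    rw [mul_assoc, Finset.sum_mul]
    congr 1
    refine Finset.sum_congr rfl fun t _ ↦ ?_
    rw [Finset.sum_mul]
    exact Finset.sum_congr rfl fun u _ ↦ re_mul_real _ _
  refine (Finset.sum_le_sum h0).trans (le_of_eq ?_)
  rw [← Finset.mul_sum]
  congr 1
  have h8 : ∀ t u : k, (VI S ψ W N I₀ s s' P t u (fun _ _ _ _ _ _ ↦ True)).re =
      ∑ b ∈ P.powerset with S.Fam b,
        (PI S ψ N I₀ s s' P t u (fun _ _ _ _ _ _ ↦ True) b * (W b : ℂ)).re := by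
    intro t u
    unfold VI
    rw [Complex.re_sum]
  simp only [h8]
  rw [Finset.sum_comm]
  refine Finset.sum_congr rfl fun t _ ↦ ?_
  rw [Finset.sum_comm]

end steps

theorem bound_pair {K : ℕ} {X y : ℝ} (K' i j : ℕ) (hy : 0 ≤ y) :
    (K' : ℝ) * (lg X + 2) ^ K' * (i + j) ^ K * (2 : ℝ) ^ (-(min i j : ℝ) / K) *
      min 1 (X / 2 ^ (i + j)) * y ≤
    K' * y * (((lg X : ℝ) + 2) ^ K' * ((i : ℝ) + j) ^ K * (2 : ℝ) ^ (-(min i j : ℝ) / K) *
      min 1 (2 ^ (lg X + 1) / 2 ^ (i + j))) := by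
  have hm := min_bound X (i + j)
  calc _ = (K' * y * (((lg X : ℝ) + 2) ^ K' * ((i : ℝ) + j) ^ K *
        (2 : ℝ) ^ (-(min i j : ℝ) / K))) * min 1 (X / 2 ^ (i + j)) := by ring
    _ ≤ (K' * y * (((lg X : ℝ) + 2) ^ K' * ((i : ℝ) + j) ^ K *
        (2 : ℝ) ^ (-(min i j : ℝ) / K))) * min 1 (2 ^ (lg X + 1) / 2 ^ (i + j)) :=
        mul_le_mul_of_nonneg_left hm (by positivity)
    _ = _ := by ring

theorem bound_pair1 {K : ℕ} {X y : ℝ} (K' i j : ℕ) (hj : 1 ≤ j) (hy : 0 ≤ y) :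
    (K' : ℝ) * (lg X + 2) ^ K' * (i + 1) ^ K * (2 : ℝ) ^ (-(min i j : ℝ) / K) *
      min 1 (X / 2 ^ (i + j)) * y ≤
    K' * y * (((lg X : ℝ) + 2) ^ K' * ((i : ℝ) + j) ^ K * (2 : ℝ) ^ (-(min i j : ℝ) / K) *
      min 1 (2 ^ (lg X + 1) / 2 ^ (i + j))) := by
  have hm := min_bound X (i + j)
  have hj1' : (1 : ℝ) ≤ j := by exact_mod_cast hj
  have h4 : ((i : ℝ) + 1) ^ K ≤ ((i : ℝ) + j) ^ K := by gcongr
  have h0 : (0 : ℝ) ≤ min 1 (2 ^ (lg X + 1) / 2 ^ (i + j)) := le_min zero_le_one (by positivity)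
  calc _ = (K' * y * (((lg X : ℝ) + 2) ^ K' * (2 : ℝ) ^ (-(min i j : ℝ) / K) *
        ((i : ℝ) + 1) ^ K)) * min 1 (X / 2 ^ (i + j)) := by ring
    _ ≤ (K' * y * (((lg X : ℝ) + 2) ^ K' * (2 : ℝ) ^ (-(min i j : ℝ) / K) *
        ((i : ℝ) + 1) ^ K)) * min 1 (2 ^ (lg X + 1) / 2 ^ (i + j)) :=
        mul_le_mul_of_nonneg_left hm (by positivity)
    _ ≤ (K' * y * (((lg X : ℝ) + 2) ^ K' * (2 : ℝ) ^ (-(min i j : ℝ) / K) *
        ((i : ℝ) + j) ^ K)) * min 1 (2 ^ (lg X + 1) / 2 ^ (i + j)) :=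
        mul_le_mul_of_nonneg_right (mul_le_mul_of_nonneg_left (mul_le_mul_of_nonneg_left h4
          (by positivity)) (by positivity)) h0
    _ = _ := by ring

/-- **G4_BLK**. -/
theorem g4_blk : G4_BLK := by
  classical
  intro hLAB hFOU hFUL hMN hSPL hSML hB hC hD hSMA hSMB hSM6 p _ B B₀ k U Λ Cc _ _ _ _ _ _ _ _ _
    _ _ S ψ eL N g K hyp
  have hypW : HypW S ψ g K := hyp.toHyp₄.toHypW
  obtain ⟨KB, hKB⟩ := hB p B B₀ k U Λ Cc S ψ eL N g K hyp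
  obtain ⟨KC, hKC⟩ := hC p B B₀ k U Λ Cc S ψ eL N g K hyp
  obtain ⟨KD, hKD⟩ := hD p B B₀ k U Λ Cc S ψ eL N g K hyp
  obtain ⟨KS, hKS⟩ := hSML p B B₀ k U Λ Cc S ψ eL N g K hyp
  have hK : 1 ≤ K := hypW.one_le
  obtain ⟨AB, hAB⟩ := hSM6 K KB hK
  obtain ⟨AC, hAC⟩ := hSM6 K KC hK
  obtain ⟨AD, hAD⟩ := hSM6 K KD hK
  set A := AB + AC + AD + 1 with hA
  obtain ⟨A₀, hA₀⟩ := hSMA K KS A hK
  set A₅ := A₀ + 2 with hA₅
  refine ⟨A₅, by omega, fun ε hε ↦ ?_⟩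
  obtain ⟨u₀, hu₀⟩ : ∃ u₀, ψ u₀ ≠ 1 := AddChar.ne_one_iff.1 hypW.ψ_ne
  set Q : ℝ := (Fintype.card k : ℝ) with hQ
  have hQ2 : 2 ≤ Q := by
    rw [hQ]; exact_mod_cast Fintype.one_lt_card (α := k)
  have hQ0 : 0 < Q := by linarith
  set ρ : ℝ := (Fintype.card U / Fintype.card Λ : ℝ) with hρ
  have hρ0 : 0 ≤ ρ := by positivity
  set e : ℝ := ε / (KS + KB + KC + Q * KD + 1) with he
  have he0 : 0 < e := by positivity
  have hVe : (KS + KB + KC + Q * KD + 1) * e = ε := by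
    rw [he]; field_simp
  obtain ⟨L3, hL3⟩ := hA₀ A₅ (by omega) e he0
  obtain ⟨L4, hL4⟩ := hSMB A A₅ 2 (by omega)
  obtain ⟨LB, hLB⟩ := hAB e he0
  obtain ⟨LC, hLC⟩ := hAC e he0
  obtain ⟨LD, hLD⟩ := hAD e he0
  refine ⟨2 ^ (L3 + L4 + LB + LC + LD + 9), fun X hX V G I₀ hG hNV hIV P ↦ ?_⟩
  have hLX := le_lg hX
  set L := lg X with hL
  set s := Nat.sqrt L with hs
  set s' := sl A₅ L with hs'
  set I := ti A L with hI
  have hX1 : 1 ≤ X := le_trans (one_le_pow₀ (by norm_num)) hX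
  obtain ⟨hc1, hc2, hc3, hc4⟩ := hL4 L (by omega)
  have hgX : 1 ≤ g X := hypW.g_one X
  have hXg : 0 ≤ X * g X := by positivity
  have hI1 : 1 ≤ I := by
    rw [hI]
    unfold ti
    have : 1 ≤ Nat.log 2 L := Nat.le_log_of_pow_le (by norm_num) (by omega)
    nlinarith
  set J := Nat.log 2 (S.nm P) + 1 + I with hJ
  obtain ⟨hPJ, hnm⟩ := bl_lt_of_subset S (P := P) (J := J) (by omega)
  have hIB : ti AB L ≤ I := ti_mono L (by omega)
  have hIC : ti AC L ≤ I := ti_mono L (by omega)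
  have hID : ti AD L ≤ I := ti_mono L (by omega)
  have hIs' : I ≤ s' := by omega
  have hIs : I ≤ s := by omega
  set E : Finset B → ℝ := fun b ↦ Real.exp (-(S.nm b / X)) with hE
  have hE0 : ∀ b, 0 ≤ E b := fun b ↦ Real.exp_nonneg _
  set W : Finset B → ℝ := fun b ↦ G b * E b with hWdef
  have hW0 : ∀ b, 0 ≤ W b := fun b ↦ mul_nonneg (hG.nonneg b) (hE0 b)
  obtain ⟨h, hh1, -, hh2⟩ := hFOU p B B₀ k U Λ Cc S (ps ψ u₀) (ps_ne ψ u₀ hu₀) V G hG P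
  have hfou := fou_bound S hLAB (ps ψ u₀) V G P h hh2 (P.powerset.filter fun b ↦ S.Fam b)
    (fun b hb ↦ (mem_powerset.1 (mem_filter.1 hb).1))
  -- the condition at `q`
  have hSD : ∀ t u : k, t ≠ 0 → u ≠ 0 →
      (VI S ψ W N I₀ s s' P t u (fun _ _ _ _ _ _ ↦ True)).re ≤ KD * e * (X * g X) := by
    intro t u ht hu
    refine (Complex.re_le_norm _).trans ?_
    unfold VI
    refine hfou _ E _ fun z ↦ ?_
    rw [mul_inner S ψ N I₀ s s' P t u _ _ (fun b ↦ by rw [mem_filter, mem_powerset])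
      (fun b ↦ Wz S (ps ψ u₀) V h z b) (fun b ↦ (E b : ℂ))]
    refine (norm_T0_D S N I₀ s s' J P hPJ _).trans ?_
    refine (sum_pairs (K := K) (K' := KD) (L := L) (T := I) (s' := s) (s := s') (J := J)
      (ε := e) (c := KD * (X * g X)) (by positivity) hIs hIs'
      (hLD L (by omega) I hID J) _ ?_).trans (le_of_eq (by ring))
    intro i hi j hj
    rw [mem_Ico] at hi hj
    refine (hKD V I₀ u₀ h z hNV hIV hh1 i j t u X P (by omega) (by omega) ht hu hX1).trans ?_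
    exact bound_pair (K := K) KD i j hXg
  -- the large moduli
  have hSL : ∀ t : k, t ≠ 0 →
      (VI S ψ W N I₀ s s' P t 0 (fun b q P₁ ↦ HL S I b q P₁)).re ≤
        (KB * e + KC * e) * (X * g X) := by
    intro t ht
    refine (Complex.re_le_norm _).trans ?_
    unfold VI
    refine hfou _ E _ fun z ↦ ?_
    rw [mul_inner S ψ N I₀ s s' P t 0 _ _ (fun b ↦ by rw [mem_filter, mem_powerset])
      (fun b ↦ Wz S (ps ψ u₀) V h z b) (fun b ↦ (E b : ℂ))]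
    have hsplit : T0 S N I₀ s s' P (fun b q P₁ ↦ Wz S (ps ψ u₀) V h z b *
          ful₄ S ψ P b q P₁ t 0 0 (HL S I b q P₁) * (E b : ℂ)) =
        ∑ i ∈ Ico I J, T0 S N I₀ s s' P (fun b q P₁ ↦ Wz S (ps ψ u₀) V h z b *
            ful₄ S ψ P b q P₁ t 0 0 (HB S V u₀ z eL I i b q P₁ t) * (E b : ℂ)) +
        ∑ i ∈ Ico I J, T0 S N I₀ s s' P (fun b q P₁ ↦ Wz S (ps ψ u₀) V h z b *
            ful₄ S ψ P b q P₁ t 0 0 (HC S V u₀ z eL I i b q P₁ t) * (E b : ℂ)) := by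
      rw [← T0_sum, ← T0_sum, ← T0_add]
      refine T0_congr S N I₀ s s' P _ _ fun b hb q P₁ ↦ ?_
      rw [(hSPL p B B₀ k U Λ Cc S ψ eL I J P b q P₁ t hI1 (by omega) (hnm b hb)).2 V u₀ z,
        ← Finset.sum_mul, ← Finset.sum_mul, ← Finset.mul_sum, ← Finset.mul_sum]
      ring
    rw [hsplit, add_mul]
    refine (norm_add_le _ _).trans (add_le_add ?_ ?_)
    · refine ((norm_sum_le _ _).trans (Finset.sum_le_sum fun i _ ↦
        norm_T0_B S N I₀ s s' J P hPJ _)).trans ?_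
      refine (sum_pairs (K := K) (K' := KB) (L := L) (T := I) (s' := I) (s := s') (J := J)
        (ε := e) (c := KB * (X * g X)) (by positivity) le_rfl hIs'
        (hLB L (by omega) I hIB J) _ ?_).trans (le_of_eq (by ring))
      intro i hi j hj
      rw [mem_Ico] at hi hj
      refine (hKB V I₀ u₀ h z hNV hIV hh1 I i j s t X P (by omega) (by omega) ht hX1).trans ?_
      exact bound_pair1 (K := K) KB i j (by omega) hXg
    · refine ((norm_sum_le _ _).trans (Finset.sum_le_sum fun i _ ↦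
        norm_T0_C S N I₀ s s' J P hPJ _)).trans ?_
      refine (sum_pairs (K := K) (K' := KC) (L := L) (T := I) (s' := I) (s := s) (J := J)
        (ε := e) (c := KC * (X * g X)) (by positivity) le_rfl hIs
        (hLC L (by omega) I hIC J) _ ?_).trans (le_of_eq (by ring))
      intro i hi i' hi'
      rw [mem_Ico] at hi hi'
      refine (hKC V I₀ u₀ h z hNV hIV hh1 I i i' s' t X P (by omega) (by omega) ht
        hX1).trans ?_
      exact bound_pair1 (K := K) KC i i' (by omega) hXg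
  -- the small moduli
  have hSA : ∀ t : k, (VI S ψ W N I₀ s s' P t 0 (fun b q P₁ ↦ HA S I b q P₁)).re ≤
      KS * e * (X * g X) := by
    intro t
    refine (ha_le S ψ G E hG.nonneg hG.le_one hE0 N I₀ s s' J P hPJ t
      (fun b q P₁ ↦ HA S I b q P₁)).trans ?_
    have h1 : ∀ j ∈ Ico s' J, ∑ b ∈ P.powerset with S.Fam b,
        ∑ q ∈ b with (Wv S b q ∧ S.bl q = j), ∑ P₁ ∈ b with (Piv S N b P₁ ∧ P₁ ≠ q),
          ‖ful₄ S ψ P b q P₁ t 0 0 (HA S I b q P₁)‖ * E b ≤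
        KS * ((2 * (ti A L : ℝ) + 2) ^ KS / j * min 1 (2 ^ (L + 1) / 2 ^ j) *
        ((max 1 (min j (L - (j + 1 + 2 * ti A L))) : ℕ) : ℝ) ^ (-(1 / K : ℝ))) *
          (X * g X) := by
      intro j hj
      rw [mem_Ico] at hj
      have h2 := hKS I j t X P (by omega) hX1
      have hm' := min_bound X j
      refine h2.trans ?_
      refine mul_le_mul_of_nonneg_right ?_ hXg
      have h0 : (0 : ℝ) ≤ ((max 1 (min j (L - (j + 1 + 2 * I))) : ℕ) : ℝ) ^ (-(1 / K : ℝ)) := by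
        positivity
      have h01 : (0 : ℝ) ≤ KS * ((2 * (I : ℝ) + 2) ^ KS / j) := by positivity
      calc (KS : ℝ) * (2 * (I : ℝ) + 2) ^ KS / j * min 1 (X / 2 ^ j) *
            ((max 1 (min j (lg X - (j + 1 + 2 * I))) : ℕ) : ℝ) ^ (-(1 / K : ℝ))
          = KS * ((2 * (I : ℝ) + 2) ^ KS / j) * min 1 (X / 2 ^ j) *
            ((max 1 (min j (L - (j + 1 + 2 * I))) : ℕ) : ℝ) ^ (-(1 / K : ℝ)) := by
            rw [← hL]; ring
        _ ≤ KS * ((2 * (I : ℝ) + 2) ^ KS / j) * min 1 (2 ^ (lg X + 1) / 2 ^ j) *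
            ((max 1 (min j (L - (j + 1 + 2 * I))) : ℕ) : ℝ) ^ (-(1 / K : ℝ)) :=
            mul_le_mul_of_nonneg_right (mul_le_mul_of_nonneg_left hm' h01) h0
        _ = _ := by rw [← hL, hI]; ring
    refine (Finset.sum_le_sum h1).trans ?_
    rw [← Finset.sum_mul, ← Finset.mul_sum]
    exact mul_le_mul_of_nonneg_right (mul_le_mul_of_nonneg_left
      (hL3 L (by omega) J) (Nat.cast_nonneg _)) hXg
  -- `u = 0`
  set MM : ℝ := ∑ b ∈ P.powerset with S.Fam b,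
        (∑ q ∈ b with (Wv S b q ∧ s' ≤ S.bl q ∧ I₀ q),
          ∑ P₁ ∈ b with (Piv S N b P₁ ∧ P₁ ≠ q ∧ s ≤ S.bl P₁),
            (1 / Q) ^ (ra₄ S b q P₁).card) * W b with hMM
  have h00 : ∀ t : k, t ≠ 0 → (VI S ψ W N I₀ s s' P t 0 (fun _ _ _ _ _ _ ↦ True)).re ≤
      ρ * MM + (KS * e + KB * e + KC * e) * (X * g X) := by
    intro t ht
    have h1 : VI S ψ W N I₀ s s' P t 0 (fun _ _ _ _ _ _ ↦ True) =
        VI S ψ W N I₀ s s' P t 0 (fun b q P₁ ↦ FM S b q P₁) +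
        VI S ψ W N I₀ s s' P t 0 (fun b q P₁ ↦ HA S I b q P₁) +
        VI S ψ W N I₀ s s' P t 0 (fun b q P₁ ↦ HL S I b q P₁) := by
      unfold VI PI
      rw [← Finset.sum_add_distrib, ← Finset.sum_add_distrib]
      refine Finset.sum_congr rfl fun b hb ↦ ?_
      rw [mem_filter, mem_powerset] at hb
      rw [← add_mul, ← add_mul]
      congr 1
      rw [← Finset.sum_add_distrib, ← Finset.sum_add_distrib]
      refine Finset.sum_congr rfl fun q _ ↦ ?_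
      rw [← Finset.sum_add_distrib, ← Finset.sum_add_distrib]
      refine Finset.sum_congr rfl fun P₁ _ ↦ ?_
      exact (hSPL p B B₀ k U Λ Cc S ψ eL I J P b q P₁ t hI1 (by omega) (hnm b hb.1)).1
    rw [h1, Complex.add_re, Complex.add_re, fm_eq S hMN ψ W N I₀ s s' P t]
    have a1 := hSA t
    have a2 := hSL t ht
    have a3 : (KS * e + KB * e + KC * e) * (X * g X) =
        KS * e * (X * g X) + (KB * e + KC * e) * (X * g X) := by ring
    rw [a3]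
    linarith
  have hcard : ∀ F : Finset k, (F.card : ℝ) ≤ Q := fun F ↦ by
    rw [hQ]
    exact_mod_cast Finset.card_le_univ _
  -- all `u`
  have hu : ∀ t ∈ (univ : Finset k).filter (fun t ↦ t ≠ 0),
      ∑ u : k, (VI S ψ W N I₀ s s' P t u (fun _ _ _ _ _ _ ↦ True)).re ≤
        ρ * MM + (KS * e + KB * e + KC * e) * (X * g X) + Q * (KD * e * (X * g X)) := by
    intro t ht
    rw [mem_filter] at ht
    have h0 : 0 ≤ KD * e * (X * g X) := by positivity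
    have h2 : ∀ u ∈ (univ : Finset k),
        (VI S ψ W N I₀ s s' P t u (fun _ _ _ _ _ _ ↦ True)).re ≤
        (if u = 0 then
          (VI S ψ W N I₀ s s' P t 0 (fun _ _ _ _ _ _ ↦ True)).re else 0) +
            KD * e * (X * g X) := by
      intro u _
      by_cases h : u = 0
      · rw [if_pos h, h]
        linarith
      · rw [if_neg h, zero_add]
        exact hSD t u ht.2 h
    refine (Finset.sum_le_sum h2).trans ?_
    rw [Finset.sum_add_distrib, Finset.sum_ite_eq', if_pos (mem_univ _), Finset.sum_const,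
      nsmul_eq_mul]
    exact add_le_add (h00 t ht.2) (mul_le_mul_of_nonneg_right (hcard _) h0)
  refine (vi_le S hFUL ψ hypW.ψ_ne W hW0 N I₀ s s' P).trans ?_
  have h0 : 0 ≤ (KS * e + KB * e + KC * e) * (X * g X) + Q * (KD * e * (X * g X)) := by
    positivity
  have h7 : ∑ t : k with t ≠ 0, ∑ u : k,
        (VI S ψ W N I₀ s s' P t u (fun _ _ _ _ _ _ ↦ True)).re ≤
      (Q - 1) * (ρ * MM) +
        Q * ((KS * e + KB * e + KC * e) * (X * g X) + Q * (KD * e * (X * g X))) := by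
    refine (Finset.sum_le_sum hu).trans ?_
    simp only [add_assoc]
    rw [Finset.sum_add_distrib, Finset.sum_const, Finset.sum_const, nsmul_eq_mul, nsmul_eq_mul]
    refine add_le_add (le_of_eq ?_) (mul_le_mul_of_nonneg_right (hcard _)
      (by simpa only [add_assoc] using h0))
    congr 1
    rw [Finset.filter_ne', Finset.card_erase_of_mem (mem_univ _), Finset.card_univ,
      Nat.cast_sub Fintype.card_pos, hQ, Nat.cast_one]
  refine (mul_le_mul_of_nonneg_left h7 (by positivity : (0 : ℝ) ≤ 1 / Q)).trans ?_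
  have h8 : ∑ b ∈ P.powerset with S.Fam b,
      (∑ q ∈ b with (Wv S b q ∧ s' ≤ S.bl q ∧ I₀ q),
        ∑ P₁ ∈ b with (Piv S N b P₁ ∧ P₁ ≠ q ∧ s ≤ S.bl P₁),
          (Q - 1) * (1 / Q) ^ (ra₄ S b q P₁).card) * (G b * Real.exp (-(S.nm b / X))) =
      (Q - 1) * MM := by
    rw [hMM, Finset.mul_sum]
    refine Finset.sum_congr rfl fun b _ ↦ ?_
    simp only [← Finset.mul_sum]
    rw [mul_assoc]
  rw [h8]
  have h9 : 1 / Q * ((Q - 1) * (ρ * MM) +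
        Q * ((KS * e + KB * e + KC * e) * (X * g X) + Q * (KD * e * (X * g X)))) =
      1 / Q * (ρ * ((Q - 1) * MM)) +
        (KS + KB + KC + Q * KD) * e * (X * g X) := by
    field_simp
  rw [h9, ← hVe]
  have h10 : 0 ≤ e * (X * g X) := by positivity
  nlinarith [h10]

end Pool.Agent.Helper97.TH
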